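import Pool.Agent.H308R2.ZS.Stubs

set_option autoImplicit false

open scoped ComplexConjugate Kronecker Matrix.Norms.L2Operator CStarAlgebra
open MeasureTheory

noncomputable section

namespace Pool.Agent.H308R2.ZS.T_DENS

open Pool.Agent.H923R2.FP Pool.Agent.H923R2.FZ Pool.Agent.H308R2.ZS

/-- `lft` as a linear map -/
def lftL (n : ℕ) : Matrix (Fin (n + 1)) (Fin (n + 1)) ℂ →ₗ[ℂ] MM n where
  toFun := lft n
  map_add' x y := (lft_add n x y).symm
  map_smul' c x := lft_smul n c x

/-- `rgt` as a linear map -/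
def rgtL (n : ℕ) : Matrix (Fin (n + 2)) (Fin (n + 2)) ℂ →ₗ[ℂ] MM n where
  toFun := rgt n
  map_add' x y := (rgt_add n x y).symm
  map_smul' c x := rgt_smul n c x

lemma closed_dimDrop (n : ℕ) : IsClosed (dimDrop n : Set C(unitInterval, MM n)) := by
  have h1 : IsClosed ((LinearMap.range (lftL n) : Submodule ℂ (MM n)) : Set (MM n)) :=
    Submodule.closed_of_finiteDimensional _
  have h2 : IsClosed ((LinearMap.range (rgtL n) : Submodule ℂ (MM n)) : Set (MM n)) :=
    Submodule.closed_of_finiteDimensional _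
  have e : (dimDrop n : Set C(unitInterval, MM n)) =
      (fun F : C(unitInterval, MM n) => F 0) ⁻¹'
        ((LinearMap.range (lftL n) : Submodule ℂ (MM n)) : Set (MM n)) ∩
      (fun F : C(unitInterval, MM n) => F 1) ⁻¹'
        ((LinearMap.range (rgtL n) : Submodule ℂ (MM n)) : Set (MM n)) := by
    ext F
    constructor
    · rintro ⟨⟨x, hx⟩, y, hy⟩
      exact ⟨⟨x, hx.symm⟩, ⟨y, hy.symm⟩⟩
    · rintro ⟨⟨x, hx⟩, ⟨y, hy⟩⟩
      exact ⟨⟨x, hx.symm⟩, y, hy.symm⟩
  rw [e]
  exact (h1.preimage (continuous_eval_const (0 : unitInterval))).inter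
    (h2.preimage (continuous_eval_const (1 : unitInterval)))

instance (n : ℕ) : IsClosed (dimDrop n : Set C(unitInterval, MM n)) := closed_dimDrop n

instance instCS (n : ℕ) : CStarAlgebra (dimDrop n) := StarSubalgebra.cstarAlgebra (dimDrop n)

/-- evaluation on the dimension drop algebra -/
def ev (n : ℕ) (t : unitInterval) : dimDrop n →⋆ₐ[ℂ] MM n where
  toFun F := (F : C(unitInterval, MM n)) t
  map_one' := rfl
  map_mul' _ _ := rfl
  map_zero' := rfl
  map_add' _ _ := rfl
  commutes' _ := rfl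
  map_star' _ := rfl

lemma ev_apply (n : ℕ) (t : unitInterval) (F : dimDrop n) :
    ev n t F = (F : C(unitInterval, MM n)) t := rfl

lemma cfc_eval (n : ℕ) (y : dimDrop n) (hy : star y = y) (F : ℝ → ℝ) (hF : Continuous F)
    (t : unitInterval) :
    ((cfc F y : dimDrop n) : C(unitInterval, MM n)) t = cfc F ((y : C(unitInterval, MM n)) t) := by
  have h := StarAlgHom.map_cfc (ev n t) F y (hF.continuousOn) (map_continuous (ev n t))
    (show IsSelfAdjoint y from hy) (show IsSelfAdjoint (ev n t y) from by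
      show star (ev n t y) = ev n t y
      rw [← map_star, hy])
  exact h

lemma cfc_map (n : ℕ) (B : Type) [CStarAlgebra B] (d : dimDrop n →⋆ₐ[ℂ] B) (y : dimDrop n)
    (hy : star y = y) (F : ℝ → ℝ) (hF : Continuous F) :
    d (cfc F y) = cfc F (d y) := by
  have h := StarAlgHom.map_cfc d F y (hF.continuousOn) (map_continuous d)
    (show IsSelfAdjoint y from hy) (show IsSelfAdjoint (d y) from by
      show star (d y) = d y
      rw [← map_star, hy])
  exact h

theorem t_DENS (hTRM : S_TRM) (hGG : S_GG) (hGENR : S_GENR) (hATM : S_ATM) : S_DENS := by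
  intro n B _ τ hτ d h hh η hη
  obtain ⟨μ, hμ, hint⟩ := hTRM n B τ hτ d
  obtain ⟨g, hg, hgm⟩ := hGG n
  have hpos : (0 : ℝ) < η / (‖g‖ + 1) := by positivity
  obtain ⟨x, hx0, hx1, hx⟩ := hGENR n (n + 2) (by omega) (h : C(unitInterval, MM n))
    (g : C(unitInterval, MM n)) (by simpa using congrArg Subtype.val hh)
    (by simpa using congrArg Subtype.val hg) hgm μ _ hpos
  have hys : star (h + (x : ℂ) • g) = h + (x : ℂ) • g := by
    rw [star_add, star_smul, hh, hg]
    simp
  refine ⟨h + (x : ℂ) • g, hys, ?_, ?_⟩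
  · rw [add_sub_cancel_left, norm_smul]
    have : ‖(x : ℂ)‖ = x := by
      rw [Complex.norm_real, Real.norm_eq_abs, abs_of_pos hx0]
    rw [this]
    have h3 : x * (‖g‖ + 1) < η := by
      rw [lt_div_iff₀ (by positivity)] at hx1
      exact hx1
    nlinarith [norm_nonneg g]
  · intro c
    obtain ⟨F, hF, hF0, hF1, hF2⟩ := hATM n (n + 2) ((h + (x : ℂ) • g : dimDrop n) :
      C(unitInterval, MM n)) (by simpa using congrArg Subtype.val hys) μ hx c
      (1 / (2 * (n + 1))) (by positivity)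
    refine ⟨F, hF, hF0, hF1, ?_⟩
    rw [← cfc_map n B d _ hys F hF, hint]
    have e : ∀ t : unitInterval,
        ntr (((cfc F (h + (x : ℂ) • g) : dimDrop n) : C(unitInterval, MM n)) t) =
        ntr (cfc F (((h + (x : ℂ) • g : dimDrop n) : C(unitInterval, MM n)) t)) := by
      intro t
      rw [cfc_eval n _ hys F hF t]
    simp_rw [e]
    refine lt_of_lt_of_le hF2 ?_
    have hn : (0 : ℝ) < (n : ℝ) + 1 := by positivity
    have hn2 : (0 : ℝ) < (n : ℝ) + 2 := by positivity
    push_cast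
    have e1 : ((n : ℝ) + 2) / (((n : ℝ) + 1) * ((n : ℝ) + 2)) = 1 / ((n : ℝ) + 1) := by
      field_simp
    rw [e1]
    have e2 : 1 / (2 * ((n : ℝ) + 1)) = (1 / 2) * (1 / ((n : ℝ) + 1)) := by
      field_simp
    have e3 : 2 / ((n : ℝ) + 1) = 2 * (1 / ((n : ℝ) + 1)) := by
      field_simp
    rw [e2, e3]
    have : 0 < 1 / ((n : ℝ) + 1) := by positivity
    nlinarith

end Pool.Agent.H308R2.ZS.T_DENS
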