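import Pool.Agent.H308R2.ZS.Stubs

set_option autoImplicit false

open scoped ComplexConjugate Kronecker Matrix.Norms.L2Operator CStarAlgebra
open MeasureTheory

noncomputable section

namespace Pool.Agent.H308R2.ZS.T_DNZ

open Pool.Agent.H923R2.FP Pool.Agent.H923R2.FZ Pool.Agent.H308R2.ZS

/-- `lft` as a linear map -/
def lftL (n : ℕ) : Matrix (Fin (n + 1)) (Fin (n + 1)) ℂ →ₗ[ℂ] MM n where
  toFun := lft n
  map_add' x y := (lft_add n x y).symm
  map_smul' c x := lft_smul n c x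

/-- `rgt` as a linear map -/
def rgtL (n : ℕ) : Matrix (Fin (n + 2)) (Fin (n + 2)) ℂ →ₗ[ℂ] MM n where
  toFun := rgt n
  map_add' x y := (rgt_add n x y).symm
  map_smul' c x := rgt_smul n c x

lemma closed_dimDrop (n : ℕ) : IsClosed (dimDrop n : Set C(unitInterval, MM n)) := by
  have h1 : IsClosed ((LinearMap.range (lftL n) : Submodule ℂ (MM n)) : Set (MM n)) :=
    Submodule.closed_of_finiteDimensional _
  have h2 : IsClosed ((LinearMap.range (rgtL n) : Submodule ℂ (MM n)) : Set (MM n)) :=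
    Submodule.closed_of_finiteDimensional _
  have e : (dimDrop n : Set C(unitInterval, MM n)) =
      (fun F : C(unitInterval, MM n) => F 0) ⁻¹'
        ((LinearMap.range (lftL n) : Submodule ℂ (MM n)) : Set (MM n)) ∩
      (fun F : C(unitInterval, MM n) => F 1) ⁻¹'
        ((LinearMap.range (rgtL n) : Submodule ℂ (MM n)) : Set (MM n)) := by
    ext F
    constructor
    · rintro ⟨⟨x, hx⟩, y, hy⟩
      exact ⟨⟨x, hx.symm⟩, ⟨y, hy.symm⟩⟩
    · rintro ⟨⟨x, hx⟩, ⟨y, hy⟩⟩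
      exact ⟨⟨x, hx.symm⟩, y, hy.symm⟩
  rw [e]
  exact (h1.preimage (continuous_eval_const (0 : unitInterval))).inter
    (h2.preimage (continuous_eval_const (1 : unitInterval)))

instance (n : ℕ) : IsClosed (dimDrop n : Set C(unitInterval, MM n)) := closed_dimDrop n

instance instCS (n : ℕ) : CStarAlgebra (dimDrop n) := StarSubalgebra.cstarAlgebra (dimDrop n)

theorem t_DNZ (hDENS : S_DENS) (_hTSB : S_TSB) : S_DNZ := by
  intro Z _ τ hJ ε hε x hx η hη
  obtain ⟨n, D, hmono, hn, -, hiso, hdense⟩ := hJ.lim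
  obtain ⟨K, hK⟩ := (hn.eventually (Filter.eventually_ge_atTop (Nat.ceil (2 / ε)))).exists_forall_of_atTop
  obtain ⟨z, hz, hzx⟩ := hdense.exists_dist_lt x (half_pos hη)
  obtain ⟨k1, hk1⟩ := Set.mem_iUnion.1 hz
  obtain ⟨k, hkK, hkk1⟩ : ∃ k, K ≤ k ∧ k1 ≤ k := ⟨max K k1, le_max_left _ _, le_max_right _ _⟩
  have hzk : z ∈ D k := hmono hkk1 hk1
  have hnk : 2 / ε ≤ (n k : ℝ) := (Nat.le_ceil _).trans (by exact_mod_cast hK k hkK)
  obtain ⟨Θ⟩ := hiso k
  set z' : Z := (1 / 2 : ℂ) • (z + star z) with hz'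
  have hz's : star z' = z' := by
    rw [hz', star_smul, star_add, star_star, add_comm (star z) z]
    simp
  have hz'k : z' ∈ D k := (D k).smul_mem (add_mem hzk (star_mem hzk)) _
  have hz'x : ‖z' - x‖ < η / 2 := by
    have e : z' - x = (1 / 2 : ℂ) • ((z - x) + star (z - x)) := by
      rw [hz', star_sub, hx, sub_add_sub_comm, smul_sub, ← two_smul ℂ x, smul_smul]
      norm_num
    rw [e, norm_smul]
    have h1 : ‖(z - x) + star (z - x)‖ ≤ 2 * ‖z - x‖ := by
      refine (norm_add_le _ _).trans ?_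
      rw [norm_star]
      linarith
    have h2 : ‖z - x‖ < η / 2 := by
      rw [dist_eq_norm] at hzx
      rwa [norm_sub_rev]
    have h3 : ‖(1 / 2 : ℂ)‖ = 1 / 2 := by norm_num
    rw [h3]
    linarith
  set h : dimDrop (n k) := Θ.symm ⟨z', hz'k⟩ with hh
  have hhs : star h = h := by
    rw [hh, ← map_star]
    congr 1
    exact Subtype.ext hz's
  set d : dimDrop (n k) →⋆ₐ[ℂ] Z := (D k).subtype.comp (Θ : dimDrop (n k) →⋆ₐ[ℂ] D k) with hd
  have hdh : d h = z' := by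
    have : Θ h = ⟨z', hz'k⟩ := by rw [hh]; simp
    show ((Θ h : D k) : Z) = z'
    rw [this]
  obtain ⟨y, hys, hyh, hyA⟩ := hDENS (n k) Z τ hJ.trace d h hhs (η / 2) (half_pos hη)
  refine ⟨d y, ?_, ?_, ?_⟩
  · rw [← map_star, hys]
  · have h1 : ‖d y - z'‖ ≤ ‖y - h‖ := by
      rw [← hdh, ← map_sub]
      exact NonUnitalStarAlgHom.norm_apply_le d (y - h)
    calc ‖d y - x‖ = ‖(d y - z') + (z' - x)‖ := by rw [sub_add_sub_cancel]
      _ ≤ ‖d y - z'‖ + ‖z' - x‖ := norm_add_le _ _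
      _ < η / 2 + η / 2 := by linarith
      _ = η := by ring
  · intro c
    obtain ⟨F, h1, h2, h3, h4⟩ := hyA c
    refine ⟨F, h1, h2, h3, h4.trans_le ?_⟩
    have hp : (0 : ℝ) < (n k : ℝ) + 1 := by positivity
    rw [div_le_iff₀ hp]
    rw [div_le_iff₀ hε] at hnk
    nlinarith

end Pool.Agent.H308R2.ZS.T_DNZ
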